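import Pool.Agent.V8H8.HR.Steps

/-!
# Triples near one cusp
-/

set_option autoImplicit false

namespace Pool.Agent.V8H8.HR

open Pool.Agent.V8H8.AB

lemma TB_real : TB Rat.AbsoluteValue.real := by
  refine TB_of_emb (algebraMap ℚ ℝ) _ fun x => ?_
  rw [Rat.AbsoluteValue.real_eq_abs, eq_ratCast, Real.norm_eq_abs]
  push_cast
  rfl

lemma TB_padic (p : ℕ) [Fact p.Prime] : TB (Rat.AbsoluteValue.padic p) := by
  refine TB_of_emb (algebraMap ℚ ℚ_[p]) _ fun x => ?_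
  rw [Rat.AbsoluteValue.padic_eq_padicNorm, eq_ratCast, Padic.eq_padicNorm]

/-- every triple is sent near one cusp, at infinity and at the primes dividing `N` -/
lemma nearQ (N : ℕ) (hN : 0 < N) {δ : ℝ} (hδ : 0 < δ) : ∃ M : ℕ, 1 ≤ M ∧ ∀ a b c : ℕ, Adm a b c →
    ∃ n : ℕ, 1 ≤ n ∧ n ≤ M ∧
      16 * (a : ℝ) ^ n * ((c : ℝ) ^ n - (a : ℝ) ^ n) * ((c : ℝ) ^ n) ^ 2 ≤
        δ * ((a : ℝ) ^ n - ((c : ℝ) ^ n - (a : ℝ) ^ n)) ^ 4 ∧
      ∀ p : ℕ, p.Prime → p ∣ N →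
        ((padicNorm p (16 * (a : ℚ) ^ n * ((c : ℚ) ^ n - (a : ℚ) ^ n) * ((c : ℚ) ^ n) ^ 2) : ℚ) : ℝ) ≤
        δ * ((padicNorm p (((a : ℚ) ^ n - ((c : ℚ) ^ n - (a : ℚ) ^ n)) ^ 4) : ℚ) : ℝ) := by
  classical
  set S : Finset (AbsoluteValue ℚ ℝ) := {Rat.AbsoluteValue.real} ∪
    N.primeFactors.attach.image (fun q => @Rat.AbsoluteValue.padic q.1
      ⟨Nat.prime_of_mem_primeFactors q.2⟩) with hS
  have hTB : ∀ a ∈ S, TB a := by
    intro a ha
    rcases Finset.mem_union.1 ha with h | h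
    · rw [Finset.mem_singleton] at h
      rw [h]
      exact TB_real
    · obtain ⟨q, -, rfl⟩ := Finset.mem_image.1 h
      exact @TB_padic q.1 ⟨Nat.prime_of_mem_primeFactors q.2⟩
  obtain ⟨M, hM, hnear⟩ := near (K := ℚ) S hTB hδ
  refine ⟨M, hM, fun a b c h => ?_⟩
  have hs := h.sum
  have ha0 := h.a0
  have hb0 := h.b0
  have hac : a < c := by omega
  obtain ⟨n, hn1, hnM, hn⟩ := hnear ((a : ℚ), (c : ℚ)) (by
    show (a : ℚ) ≠ 0
    exact_mod_cast ha0.ne') (by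
    show (c : ℚ) ≠ 0
    have : c ≠ 0 := by omega
    exact_mod_cast this)
  have e1 : (psi n ((a : ℚ), (c : ℚ))).1 =
      -(16 * (a : ℚ) ^ n * ((c : ℚ) ^ n - (a : ℚ) ^ n) * ((c : ℚ) ^ n) ^ 2) := by
    unfold psi
    rw [oc_fst]
    rfl
  have e2 : (psi n ((a : ℚ), (c : ℚ))).2 = ((a : ℚ) ^ n - ((c : ℚ) ^ n - (a : ℚ) ^ n)) ^ 4 := by
    unfold psi
    rw [oc_snd]
    show (2 * (a : ℚ) ^ n - (c : ℚ) ^ n) ^ 4 = _
    congr 1
    ring
  rw [e1, e2] at hn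
  refine ⟨n, hn1, hnM, ?_, ?_⟩
  · have h1 := hn Rat.AbsoluteValue.real (Finset.mem_union_left _ (Finset.mem_singleton_self _))
    rw [Rat.AbsoluteValue.real_eq_abs, Rat.AbsoluteValue.real_eq_abs] at h1
    push_cast at h1
    rw [abs_neg] at h1
    have h2 : (0 : ℝ) ≤ ((a : ℝ) ^ n - ((c : ℝ) ^ n - (a : ℝ) ^ n)) ^ 4 := by
      have : ((a : ℝ) ^ n - ((c : ℝ) ^ n - (a : ℝ) ^ n)) ^ 4 =
        (((a : ℝ) ^ n - ((c : ℝ) ^ n - (a : ℝ) ^ n)) ^ 2) ^ 2 := by ring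
      rw [this]
      positivity
    rw [abs_of_nonneg h2] at h1
    exact (le_abs_self _).trans h1
  · intro p hp hpN
    have hpf : p ∈ N.primeFactors := Nat.mem_primeFactors.2 ⟨hp, hpN, hN.ne'⟩
    have : Fact p.Prime := ⟨hp⟩
    have h1 := hn (Rat.AbsoluteValue.padic p) (Finset.mem_union_right _ (Finset.mem_image.2
      ⟨⟨p, hpf⟩, Finset.mem_attach _ _, rfl⟩))
    rw [AbsoluteValue.map_neg, Rat.AbsoluteValue.padic_eq_padicNorm,
      Rat.AbsoluteValue.padic_eq_padicNorm] at h1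
    exact h1

/-- the maps to the triples `(a, b, c)` with `N ∣ a`, `a ≤ δ c` and `m`-th powers `a`, `c` -/
theorem region (N : ℕ) (hN : 0 < N) {δ : ℝ} (hδ : 0 < δ) (m : ℕ) (hm : 1 ≤ m) :
    ∃ D L : ℕ, 1 ≤ D ∧ ∀ a b c : ℕ, Adm a b c → 2 < c → ∃ d a' b' c' : ℕ, 1 ≤ d ∧ d ≤ D ∧
      Adm a' b' c' ∧ St d L a b c a' b' c' ∧ (∃ x, a' = x ^ m) ∧ (∃ z, c' = z ^ m) ∧ N ∣ a' ∧
        (a' : ℝ) ≤ δ * c' := by
  have hN' : (0 : ℝ) < N := by exact_mod_cast hN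
  set δ' : ℝ := min (min δ 1) (1 / N) with hδ'
  have hδ'0 : 0 < δ' := by positivity
  obtain ⟨M, hM, hnear⟩ := nearQ N hN hδ'0
  refine ⟨M * 4 * m, m * (512 * M ^ 4) ^ m, ?_, ?_⟩
  · exact Nat.one_le_iff_ne_zero.2 (by positivity)
  intro a b c h hc2
  obtain ⟨n, hn1, hnM, hre, hpa⟩ := hnear a b c h
  obtain ⟨hA, hS1⟩ := step_pow h hn1
  set A : ℕ := a ^ n with hAdef
  set C : ℕ := c ^ n with hCdef
  have hAC : A ≤ C := by
    have := hA.sum
    omega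
  set B : ℕ := C - A with hBdef
  have hBcast : (B : ℤ) = (C : ℤ) - A := by
    rw [hBdef]
    push_cast [Nat.cast_sub hAC]
    ring
  have hAB : A ≠ B := by
    intro hcon
    have h1 : C = 2 * A := by omega
    have h2 : A = 1 := by
      have h3 := hA.cop
      rw [← hcon, Nat.coprime_self] at h3
      exact h3
    rw [h2, hCdef] at h1
    have h3 : c ≤ c ^ n := Nat.le_self_pow (by omega) c
    omega
  obtain ⟨g, a', b', c', hg0, hadm', hS2, f1, f2, f3⟩ := step_oc hA hAB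
  obtain ⟨hA3, hS3⟩ := step_pow hadm' hm
  have hM0 : 0 < M := by omega
  have hst := (hS1.trans hn1 (by norm_num) hS2).trans (by omega) hm hS3
  have hst' := hst.mono (L := m * (512 * M ^ 4) ^ m) (by
    apply Nat.mul_le_mul_left
    apply Nat.pow_le_pow_left
    apply Nat.mul_le_mul_left
    exact Nat.pow_le_pow_left hnM 4)
  have ha'c' : a' ≤ c' := by
    have := hadm'.sum
    omega
  have f2' : (g : ℝ) * b' = ((A : ℝ) - B) ^ 4 := by exact_mod_cast f2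
  have f1' : (g : ℝ) * a' = 16 * A * B * C ^ 2 := by exact_mod_cast f1
  have hgpos : (0 : ℝ) < g := by exact_mod_cast hg0
  have eB : (c : ℝ) ^ n - (a : ℝ) ^ n = B := by
    have : ((B : ℤ) : ℝ) = (C : ℝ) - A := by
      rw [hBcast]
      push_cast
      ring
    rw [hAdef, hCdef] at this
    push_cast at this
    exact this.symm
  have hreal : (a' : ℝ) ≤ δ' * b' := by
    rw [eB] at hre
    have e3 : (a : ℝ) ^ n = A := by
      rw [hAdef]
      push_cast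
      rfl
    have e4 : (c : ℝ) ^ n = C := by
      rw [hCdef]
      push_cast
      rfl
    rw [e3, e4, ← f1', ← f2'] at hre
    have h5 : (g : ℝ) * a' ≤ g * (δ' * b') := by
      calc (g : ℝ) * a' ≤ δ' * (g * b') := hre
        _ = g * (δ' * b') := by ring
    exact le_of_mul_le_mul_left h5 hgpos
  have hcb : (b' : ℝ) ≤ c' := by
    have := hadm'.sum
    have : b' ≤ c' := by omega
    exact_mod_cast this
  have hreal2 : (a' : ℝ) ≤ δ' * c' := hreal.trans (mul_le_mul_of_nonneg_left hcb hδ'0.le)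
  -- divisibility
  have hdvd : N ∣ a' := by
    rw [Nat.dvd_iff_prime_pow_dvd_dvd]
    intro p k hp hpk
    rcases Nat.eq_zero_or_pos k with rfl | hk
    · simp
    have hpN : p ∣ N := (dvd_pow_self p (by omega)).trans hpk
    have : Fact p.Prime := ⟨hp⟩
    have h1 := hpa p hp hpN
    have eBq : (c : ℚ) ^ n - (a : ℚ) ^ n = B := by
      have : ((B : ℤ) : ℚ) = (C : ℚ) - A := by
        rw [hBcast]
        push_cast
        ring
      rw [hAdef, hCdef] at this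
      push_cast at this
      exact this.symm
    have e3 : (a : ℚ) ^ n = A := by
      rw [hAdef]
      push_cast
      rfl
    have e4 : (c : ℚ) ^ n = C := by
      rw [hCdef]
      push_cast
      rfl
    have f2q : ((A : ℚ) - B) ^ 4 = (g : ℚ) * b' := by exact_mod_cast f2.symm
    have f1q : 16 * (A : ℚ) * B * C ^ 2 = (g : ℚ) * a' := by exact_mod_cast f1.symm
    rw [eBq, e3, e4, f1q, f2q, padicNorm.mul, padicNorm.mul] at h1
    have hgp : (0 : ℝ) < (padicNorm p (g : ℚ) : ℚ) := by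
      have h2 : padicNorm p (g : ℚ) ≠ 0 := by
        apply padicNorm.nonzero
        exact_mod_cast hg0.ne'
      have h3 : 0 ≤ padicNorm p (g : ℚ) := padicNorm.nonneg _
      exact_mod_cast lt_of_le_of_ne h3 (Ne.symm h2)
    push_cast at h1
    have h2 : ((padicNorm p (a' : ℚ) : ℚ) : ℝ) ≤ δ' * ((padicNorm p (b' : ℚ) : ℚ) : ℝ) := by
      have h5 : ((padicNorm p (g : ℚ) : ℚ) : ℝ) * ((padicNorm p (a' : ℚ) : ℚ) : ℝ) ≤
          ((padicNorm p (g : ℚ) : ℚ) : ℝ) * (δ' * ((padicNorm p (b' : ℚ) : ℚ) : ℝ)) := by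
        calc ((padicNorm p (g : ℚ) : ℚ) : ℝ) * ((padicNorm p (a' : ℚ) : ℚ) : ℝ) ≤ _ := h1
          _ = _ := by ring
      exact le_of_mul_le_mul_left h5 hgp
    have h3 : ((padicNorm p (b' : ℚ) : ℚ) : ℝ) ≤ 1 := by
      have : padicNorm p (b' : ℚ) ≤ 1 := by
        have := padicNorm.of_nat (p := p) b'
        exact this
      exact_mod_cast this
    have hpk' : ((p ^ k : ℕ) : ℝ) ≤ N := by
      have := Nat.le_of_dvd hN hpk
      exact_mod_cast this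
    have hpk0 : (0 : ℝ) < ((p ^ k : ℕ) : ℝ) := by
      have := pow_pos hp.pos k
      exact_mod_cast this
    have h4 : ((padicNorm p (a' : ℚ) : ℚ) : ℝ) ≤ 1 / ((p ^ k : ℕ) : ℝ) := by
      calc ((padicNorm p (a' : ℚ) : ℚ) : ℝ) ≤ δ' * ((padicNorm p (b' : ℚ) : ℚ) : ℝ) := h2
        _ ≤ δ' * 1 := mul_le_mul_of_nonneg_left h3 hδ'0.le
        _ = δ' := mul_one _
        _ ≤ 1 / N := min_le_right _ _
        _ ≤ 1 / ((p ^ k : ℕ) : ℝ) := one_div_le_one_div_of_le hpk0 hpk'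
    have h5 : padicNorm p ((a' : ℤ) : ℚ) ≤ (p : ℚ) ^ (-(k : ℤ)) := by
      have e5 : (p : ℚ) ^ (-(k : ℤ)) = 1 / ((p ^ k : ℕ) : ℚ) := by
        rw [zpow_neg, zpow_natCast]
        push_cast
        rw [one_div]
      rw [e5]
      have h6 : ((padicNorm p ((a' : ℤ) : ℚ) : ℚ) : ℝ) ≤ ((1 / ((p ^ k : ℕ) : ℚ) : ℚ) : ℝ) := by
        push_cast
        push_cast at h4
        exact h4
      exact_mod_cast h6
    have h6 := padicNorm.dvd_iff_norm_le.2 h5
    exact_mod_cast h6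
  have hδ'1 : δ' ≤ 1 := (min_le_left _ _).trans (min_le_right _ _)
  refine ⟨n * 4 * m, a' ^ m, c' ^ m - a' ^ m, c' ^ m, Nat.one_le_iff_ne_zero.2 (by positivity), ?_,
    hA3, hst', ⟨a', rfl⟩, ⟨c', rfl⟩, dvd_pow hdvd (by omega), ?_⟩
  · exact Nat.mul_le_mul_right _ (Nat.mul_le_mul_right _ hnM)
  · push_cast
    calc (a' : ℝ) ^ m ≤ (δ' * c') ^ m := pow_le_pow_left₀ (Nat.cast_nonneg _) hreal2 m
      _ = δ' ^ m * (c' : ℝ) ^ m := mul_pow _ _ _
      _ ≤ δ * (c' : ℝ) ^ m := by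
        apply mul_le_mul_of_nonneg_right _ (by positivity)
        calc δ' ^ m ≤ δ' ^ 1 := pow_le_pow_of_le_one hδ'0.le hδ'1 hm
          _ = δ' := pow_one _
          _ ≤ δ := (min_le_left _ _).trans (min_le_left _ _)

end Pool.Agent.V8H8.HR
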