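import Pool.Agent.V8H8.AB.Near
import Mathlib.NumberTheory.Ostrowski
import Mathlib.NumberTheory.Padics.ProperSpace

/-!
# Maps between triples of positive integers which keep the primes
-/

set_option autoImplicit false

namespace Pool.Agent.V8H8.HR

open Finset

/-- coprime triples of positive integers with `a + b = c` -/
structure Adm (a b c : ℕ) : Prop where
  a0 : 0 < a
  b0 : 0 < b
  sum : a + b = c
  cop : Nat.Coprime a b

/-- the product of the primes dividing `n` -/
def rad (n : ℕ) : ℕ := ∏ p ∈ n.primeFactors, p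

lemma rad_pos (n : ℕ) : 0 < rad n := Finset.prod_pos fun _ hp => (Nat.prime_of_mem_primeFactors hp).pos

lemma rad_le_of_sub {n n' E : ℕ} (hE : E ≠ 0)
    (h : n'.primeFactors ⊆ n.primeFactors ∪ E.primeFactors) : rad n' ≤ rad n * E := by
  have h1 : ∏ p ∈ n'.primeFactors, p ≤ ∏ p ∈ n.primeFactors ∪ E.primeFactors, p := by
    apply Finset.prod_le_prod_of_subset_of_one_le' h
    intro p hp _
    rcases Finset.mem_union.1 hp with hp | hp
    · exact (Nat.prime_of_mem_primeFactors hp).one_le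
    · exact (Nat.prime_of_mem_primeFactors hp).one_le
  have h2 := Finset.prod_union_inter (s₁ := n.primeFactors) (s₂ := E.primeFactors) (f := fun p => p)
  have h3 : 1 ≤ ∏ p ∈ n.primeFactors ∩ E.primeFactors, p := by
    apply Nat.one_le_iff_ne_zero.2
    rw [Finset.prod_ne_zero_iff]
    intro p hp
    exact (Nat.prime_of_mem_primeFactors (Finset.mem_inter.1 hp).1).ne_zero
  have h4 : ∏ p ∈ E.primeFactors, p ≤ E := Nat.le_of_dvd (Nat.pos_of_ne_zero hE) (Nat.prod_primeFactors_dvd E)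
  unfold rad
  calc ∏ p ∈ n'.primeFactors, p ≤ ∏ p ∈ n.primeFactors ∪ E.primeFactors, p := h1
    _ ≤ (∏ p ∈ n.primeFactors ∪ E.primeFactors, p) * ∏ p ∈ n.primeFactors ∩ E.primeFactors, p :=
        Nat.le_mul_of_pos_right _ h3
    _ = (∏ p ∈ n.primeFactors, p) * ∏ p ∈ E.primeFactors, p := h2
    _ ≤ (∏ p ∈ n.primeFactors, p) * E := Nat.mul_le_mul_left _ h4

/-- a map of degree `d` between triples, keeping the primes and adding few -/
structure St (d K a b c a' b' c' : ℕ) : Prop where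
  low : c ^ d ≤ K * c'
  up : c' ≤ K * c ^ d
  sub : (a * b * c).primeFactors ⊆ (a' * b' * c').primeFactors
  rad : rad (a' * b' * c') ≤ K * c ^ (d - 1) * rad (a * b * c)

lemma St.trans {d e K L a b c a' b' c' a'' b'' c'' : ℕ} (hd : 1 ≤ d) (he : 1 ≤ e)
    (h : St d K a b c a' b' c') (h' : St e L a' b' c' a'' b'' c'') :
    St (d * e) (L * K ^ e) a b c a'' b'' c'' := by
  refine ⟨?_, ?_, h.sub.trans h'.sub, ?_⟩
  · calc c ^ (d * e) = (c ^ d) ^ e := pow_mul c d e
      _ ≤ (K * c') ^ e := Nat.pow_le_pow_left h.low e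
      _ = K ^ e * c' ^ e := mul_pow _ _ _
      _ ≤ K ^ e * (L * c'') := Nat.mul_le_mul_left _ h'.low
      _ = L * K ^ e * c'' := by ring
  · calc c'' ≤ L * c' ^ e := h'.up
      _ ≤ L * (K * c ^ d) ^ e := Nat.mul_le_mul_left _ (Nat.pow_le_pow_left h.up e)
      _ = L * K ^ e * c ^ (d * e) := by
        rw [mul_pow, pow_mul]
        ring
  · have e1 : d * e - 1 = d * (e - 1) + (d - 1) := by
      obtain ⟨d', rfl⟩ := Nat.exists_eq_add_of_le hd
      obtain ⟨e', rfl⟩ := Nat.exists_eq_add_of_le he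
      have : (1 + d') * (1 + e') = (1 + d') * (1 + e' - 1) + (1 + d' - 1) + 1 := by
        simp only [Nat.add_sub_cancel_left]
        ring
      omega
    have e2 : K ^ (e - 1) * K = K ^ e := by
      rw [← pow_succ]
      congr 1
      omega
    calc HR.rad (a'' * b'' * c'') ≤ L * c' ^ (e - 1) * HR.rad (a' * b' * c') := h'.rad
      _ ≤ L * (K * c ^ d) ^ (e - 1) * (K * c ^ (d - 1) * HR.rad (a * b * c)) :=
          Nat.mul_le_mul (Nat.mul_le_mul_left _ (Nat.pow_le_pow_left h.up _)) h.rad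
      _ = L * (K ^ (e - 1) * K) * (c ^ (d * (e - 1)) * c ^ (d - 1)) * HR.rad (a * b * c) := by
        rw [mul_pow, ← pow_mul]
        ring
      _ = L * K ^ e * c ^ (d * e - 1) * HR.rad (a * b * c) := by
        rw [e2, ← pow_add, ← e1]

lemma St.mono {d K L a b c a' b' c' : ℕ} (hKL : K ≤ L) (h : St d K a b c a' b' c') :
    St d L a b c a' b' c' := by
  refine ⟨h.low.trans (Nat.mul_le_mul_right _ hKL), h.up.trans (Nat.mul_le_mul_right _ hKL), h.sub,
    h.rad.trans ?_⟩
  exact Nat.mul_le_mul_right _ (Nat.mul_le_mul_right _ hKL)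

/-- the power map -/
lemma step_pow {a b c : ℕ} (h : Adm a b c) {n : ℕ} (hn : 1 ≤ n) :
    Adm (a ^ n) (c ^ n - a ^ n) (c ^ n) ∧ St n n a b c (a ^ n) (c ^ n - a ^ n) (c ^ n) := by
  have hac : a < c := by
    have := h.b0
    have := h.sum
    omega
  have hlt : a ^ n < c ^ n := Nat.pow_lt_pow_left hac (by omega)
  have hc0 : 0 < c := by omega
  have hcac : Nat.Coprime a c := by
    rw [← h.sum]
    exact (Nat.coprime_self_add_right).2 h.cop
  have hadm : Adm (a ^ n) (c ^ n - a ^ n) (c ^ n) := by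
    refine ⟨pow_pos h.a0 n, by omega, by omega, ?_⟩
    have h1 : Nat.Coprime (a ^ n) (c ^ n) := hcac.pow n n
    have h2 : c ^ n = a ^ n + (c ^ n - a ^ n) := by omega
    rw [h2] at h1
    exact (Nat.coprime_self_add_right).1 h1
  -- the cofactor
  set E : ℕ := ∑ i ∈ Finset.range n, c ^ i * a ^ (n - 1 - i) with hE
  have hbE : E * b = c ^ n - a ^ n := by
    have h1 : ((E * b : ℕ) : ℤ) = (c : ℤ) ^ n - (a : ℤ) ^ n := by
      rw [hE]
      push_cast
      have h2 : (b : ℤ) = (c : ℤ) - a := by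
        rw [← h.sum]
        push_cast
        ring
      rw [h2]
      exact (Commute.all (c : ℤ) (a : ℤ)).geom_sum₂_mul n
    have h3 : ((c ^ n - a ^ n : ℕ) : ℤ) = (c : ℤ) ^ n - (a : ℤ) ^ n := by
      rw [Nat.cast_sub hlt.le]
      push_cast
      ring
    exact_mod_cast h1.trans h3.symm
  have hEle : E ≤ n * c ^ (n - 1) := by
    rw [hE]
    calc ∑ i ∈ Finset.range n, c ^ i * a ^ (n - 1 - i) ≤ ∑ _ ∈ Finset.range n, c ^ (n - 1) := by
          apply Finset.sum_le_sum
          intro i hi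
          have hi := Finset.mem_range.1 hi
          calc c ^ i * a ^ (n - 1 - i) ≤ c ^ i * c ^ (n - 1 - i) :=
                Nat.mul_le_mul_left _ (Nat.pow_le_pow_left hac.le _)
            _ = c ^ (n - 1) := by
              rw [← pow_add]
              congr 1
              omega
      _ = n * c ^ (n - 1) := by rw [Finset.sum_const, Finset.card_range, smul_eq_mul]
  have hE0 : E ≠ 0 := by
    intro h0
    rw [h0, zero_mul] at hbE
    omega
  have ha0 := h.a0
  have hb0 := h.b0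
  have hne : a ^ n * (c ^ n - a ^ n) * c ^ n ≠ 0 :=
    mul_ne_zero (mul_ne_zero (pow_pos ha0 n).ne' (by omega)) (pow_pos hc0 n).ne'
  refine ⟨hadm, ?_, ?_, ?_, ?_⟩
  · exact Nat.le_mul_of_pos_left _ (by omega)
  · exact Nat.le_mul_of_pos_left _ (by omega)
  · intro p hp
    rw [Nat.mem_primeFactors] at hp ⊢
    obtain ⟨hp1, hp2, -⟩ := hp
    refine ⟨hp1, ?_, hne⟩
    rcases hp1.dvd_mul.1 hp2 with h1 | h1
    · rcases hp1.dvd_mul.1 h1 with h2 | h2
      · exact ((dvd_pow h2 (by omega)).mul_right _).mul_right _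
      · have : p ∣ c ^ n - a ^ n := by
          rw [← hbE]
          exact h2.mul_left _
        exact (this.mul_left _).mul_right _
    · exact (dvd_pow h1 (by omega)).mul_left _
  · have h1 : HR.rad (a ^ n * (c ^ n - a ^ n) * c ^ n) ≤ HR.rad (a * b * c) * E := by
      apply rad_le_of_sub hE0
      intro p hp
      rw [Nat.mem_primeFactors] at hp
      obtain ⟨hp1, hp2, -⟩ := hp
      rw [Finset.mem_union, Nat.mem_primeFactors, Nat.mem_primeFactors]
      have habc : a * b * c ≠ 0 := by positivity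
      rcases hp1.dvd_mul.1 hp2 with h1 | h1
      · rcases hp1.dvd_mul.1 h1 with h2 | h2
        · exact Or.inl ⟨hp1, ((hp1.dvd_of_dvd_pow h2).mul_right _).mul_right _, habc⟩
        · rw [← hbE] at h2
          rcases hp1.dvd_mul.1 h2 with h3 | h3
          · exact Or.inr ⟨hp1, h3, hE0⟩
          · exact Or.inl ⟨hp1, (h3.mul_left _).mul_right _, habc⟩
      · exact Or.inl ⟨hp1, (hp1.dvd_of_dvd_pow h1).mul_left _, habc⟩
    calc HR.rad (a ^ n * (c ^ n - a ^ n) * c ^ n) ≤ HR.rad (a * b * c) * E := h1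
      _ ≤ HR.rad (a * b * c) * (n * c ^ (n - 1)) := Nat.mul_le_mul_left _ hEle
      _ = n * c ^ (n - 1) * HR.rad (a * b * c) := by ring

/-- one of the members of a triple is even -/
lemma two_dvd {a b c : ℕ} (h : Adm a b c) : 2 ∣ a * b * c := by
  have hs := h.sum
  rcases Nat.even_or_odd a with ha | ha
  · exact (ha.two_dvd.mul_right _).mul_right _
  rcases Nat.even_or_odd b with hb | hb
  · exact (hb.two_dvd.mul_left _).mul_right _
  · rw [← hs]
    exact (ha.add_odd hb).two_dvd.mul_left _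

/-- the map to one cusp -/
lemma step_oc {a b c : ℕ} (h : Adm a b c) (hab : a ≠ b) : ∃ g a' b' c' : ℕ, 0 < g ∧ Adm a' b' c' ∧
    St 4 512 a b c a' b' c' ∧ g * a' = 16 * a * b * c ^ 2 ∧
    ((g * b' : ℕ) : ℤ) = ((a : ℤ) - b) ^ 4 ∧ g * c' = (c ^ 2 + 4 * a * b) ^ 2 := by
  have ha0 := h.a0
  have hb0 := h.b0
  have hs := h.sum
  have hc0 : 0 < c := by omega
  set x : ℕ := 16 * a * b * c ^ 2 with hx
  set D : ℕ := ((a : ℤ) - b).natAbs with hD
  have hD0 : 0 < D := by
    rw [hD, Int.natAbs_pos, sub_ne_zero]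
    exact_mod_cast hab
  have hD4 : ((D ^ 4 : ℕ) : ℤ) = ((a : ℤ) - b) ^ 4 := by
    rw [hD]
    push_cast
    have h1 : |(a : ℤ) - b| ^ 4 = (|(a : ℤ) - b| ^ 2) ^ 2 := by ring
    rw [h1, sq_abs]
    ring
  have hDle : D ≤ c := by
    have : ((D : ℕ) : ℤ) = |(a : ℤ) - b| := by rw [hD, Int.natCast_natAbs]
    have h2 : |(a : ℤ) - b| ≤ c := by
      rw [abs_le]
      constructor <;> omega
    omega
  set y : ℕ := c ^ 2 + 4 * a * b with hy
  have hsum : x + D ^ 4 = y ^ 2 := by
    have : ((x + D ^ 4 : ℕ) : ℤ) = ((y ^ 2 : ℕ) : ℤ) := by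
      rw [Nat.cast_add, hD4, hx, hy, ← hs]
      push_cast
      ring
    exact_mod_cast this
  have hx0 : 0 < x := by positivity
  set g : ℕ := Nat.gcd x (D ^ 4) with hg
  have hg0 : 0 < g := Nat.gcd_pos_of_pos_left _ hx0
  obtain ⟨a', ha'⟩ : g ∣ x := Nat.gcd_dvd_left _ _
  obtain ⟨b', hb'⟩ : g ∣ D ^ 4 := Nat.gcd_dvd_right _ _
  have hcop : Nat.Coprime a' b' := by
    have h1 := Nat.coprime_div_gcd_div_gcd (m := x) (n := D ^ 4) hg0
    rw [← hg] at h1
    have e1 : x / g = a' := by rw [ha', Nat.mul_div_cancel_left _ hg0]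
    have e2 : D ^ 4 / g = b' := by rw [hb', Nat.mul_div_cancel_left _ hg0]
    rwa [e1, e2] at h1
  have ha'0 : 0 < a' := Nat.pos_of_ne_zero fun h0 => by
    rw [h0, mul_zero] at ha'
    omega
  have hb'0 : 0 < b' := Nat.pos_of_ne_zero fun h0 => by
    rw [h0, mul_zero] at hb'
    have := pow_pos hD0 4
    omega
  have hc' : g * (a' + b') = y ^ 2 := by rw [mul_add, ← ha', ← hb', hsum]
  -- `g` divides `512`
  have hg512 : g ∣ 512 := by
    have hcopZ : IsCoprime (a : ℤ) (b : ℤ) := Nat.isCoprime_iff_coprime.2 h.cop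
    obtain ⟨r, s, hrs⟩ := hcopZ
    have hg1 : ((g : ℕ) : ℤ) ∣ 16 * (a : ℤ) * b * (c : ℤ) ^ 2 := by
      refine ⟨(a' : ℤ), ?_⟩
      have := congrArg (fun t : ℕ => (t : ℤ)) ha'
      simp only [hx] at this
      push_cast at this
      exact this
    have hg2 : ((g : ℕ) : ℤ) ∣ ((a : ℤ) - b) ^ 4 := by
      refine ⟨(b' : ℤ), ?_⟩
      rw [← hD4]
      exact_mod_cast hb'
    have k1 : IsCoprime ((a : ℤ) - b) ((a : ℤ) * b) := by
      apply IsCoprime.mul_right
      · exact ⟨-s, r + s, by linear_combination hrs⟩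
      · exact ⟨r, r + s, by linear_combination hrs⟩
    have k2 : IsCoprime ((g : ℕ) : ℤ) ((a : ℤ) * b) :=
      (k1.pow_left (m := 4)).of_isCoprime_of_dvd_left hg2
    have k3 : ((g : ℕ) : ℤ) ∣ 16 * (c : ℤ) ^ 2 := by
      apply k2.dvd_of_dvd_mul_right
      have : 16 * (c : ℤ) ^ 2 * (a * b) = 16 * (a : ℤ) * b * (c : ℤ) ^ 2 := by ring
      rw [this]
      exact hg1
    -- `2 = (r + s) c + (r - s) (a - b)`
    have hcZ : (c : ℤ) = a + b := by
      rw [← hs]
      push_cast
      ring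
    have k4 : (2 : ℤ) = (r + s) * c + (r - s) * ((a : ℤ) - b) := by
      rw [hcZ]
      linear_combination -2 * hrs
    set α : ℤ := (r + s) with hα
    set β : ℤ := (r - s) with hβ
    set d : ℤ := (a : ℤ) - b with hd
    have k5 : (512 : ℤ) = (16 * (c : ℤ) ^ 2) * (α ^ 5 * c ^ 3 + 5 * α ^ 4 * c ^ 2 * (β * d) +
        10 * α ^ 3 * c * (β * d) ^ 2 + 10 * α ^ 2 * (β * d) ^ 3) +
        d ^ 4 * (16 * (5 * α * c * β ^ 4 + β ^ 5 * d)) := by
      have : (512 : ℤ) = 16 * 2 ^ 5 := by norm_num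
      rw [this, k4]
      ring
    have k6 : ((g : ℕ) : ℤ) ∣ 512 := by
      rw [k5]
      exact dvd_add (k3.mul_right _) (hg2.mul_right _)
    exact_mod_cast k6
  have hgle : g ≤ 512 := Nat.le_of_dvd (by norm_num) hg512
  have hcle : c ^ 2 ≤ y := by omega
  have hyle : y ≤ 2 * c ^ 2 := by
    have : 4 * a * b ≤ c ^ 2 := by
      rw [← hs]
      nlinarith [sq_nonneg ((a : ℤ) - b), Nat.zero_le a, four_mul_le_sq_add a b]
    omega
  have hadm : Adm a' b' (a' + b') := ⟨ha'0, hb'0, rfl, hcop⟩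
  have hne : a' * b' * (a' + b') ≠ 0 := by positivity
  refine ⟨g, a', b', a' + b', hg0, hadm, ⟨?_, ?_, ?_, ?_⟩, ha'.symm, ?_, hc'⟩
  · calc c ^ 4 = (c ^ 2) ^ 2 := by ring
      _ ≤ y ^ 2 := Nat.pow_le_pow_left hcle 2
      _ = g * (a' + b') := hc'.symm
      _ ≤ 512 * (a' + b') := Nat.mul_le_mul_right _ hgle
  · calc a' + b' ≤ g * (a' + b') := Nat.le_mul_of_pos_left _ hg0
      _ = y ^ 2 := hc'
      _ ≤ (2 * c ^ 2) ^ 2 := Nat.pow_le_pow_left hyle 2
      _ = 4 * c ^ 4 := by ring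
      _ ≤ 512 * c ^ 4 := Nat.mul_le_mul_right _ (by norm_num)
  · intro p hp
    rw [Nat.mem_primeFactors] at hp ⊢
    obtain ⟨hp1, hp2, -⟩ := hp
    refine ⟨hp1, ?_, hne⟩
    by_cases h2 : p = 2
    · rw [h2]
      exact two_dvd hadm
    · have h3 : p ∣ g * a' := by
        rw [← ha', hx]
        rcases hp1.dvd_mul.1 hp2 with h4 | h4
        · rcases hp1.dvd_mul.1 h4 with h5 | h5
          · exact ((h5.mul_left _).mul_right _).mul_right _
          · exact (h5.mul_left _).mul_right _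
        · exact (dvd_pow h4 (by norm_num)).mul_left _
      have h6 : ¬ p ∣ g := by
        intro h7
        have h8 := h7.trans hg512
        have h9 : (512 : ℕ) = 2 ^ 9 := by norm_num
        rw [h9] at h8
        have := (Nat.prime_dvd_prime_iff_eq hp1 Nat.prime_two).1 (hp1.dvd_of_dvd_pow h8)
        exact h2 this
      have h7 : p ∣ a' := (hp1.dvd_mul.1 h3).resolve_left h6
      exact (h7.mul_right _).mul_right _
  · have hE0 : D * y ≠ 0 := by positivity
    have h1 : HR.rad (a' * b' * (a' + b')) ≤ HR.rad (a * b * c) * (D * y) := by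
      apply rad_le_of_sub hE0
      intro p hp
      rw [Nat.mem_primeFactors] at hp
      obtain ⟨hp1, hp2, -⟩ := hp
      rw [Finset.mem_union, Nat.mem_primeFactors, Nat.mem_primeFactors]
      have habc : a * b * c ≠ 0 := by positivity
      rcases hp1.dvd_mul.1 hp2 with h3 | h3
      · rcases hp1.dvd_mul.1 h3 with h4 | h4
        · left
          refine ⟨hp1, ?_, habc⟩
          have h5 : p ∣ x := by
            rw [ha']
            exact h4.mul_left _
          rw [hx] at h5
          rcases hp1.dvd_mul.1 h5 with h6 | h6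
          · rcases hp1.dvd_mul.1 h6 with h7 | h7
            · rcases hp1.dvd_mul.1 h7 with h8 | h8
              · have h9 : (16 : ℕ) = 2 ^ 4 := by norm_num
                rw [h9] at h8
                have := (Nat.prime_dvd_prime_iff_eq hp1 Nat.prime_two).1 (hp1.dvd_of_dvd_pow h8)
                rw [this]
                exact two_dvd h
              · exact (h8.mul_right _).mul_right _
            · exact (h7.mul_left _).mul_right _
          · exact (hp1.dvd_of_dvd_pow h6).mul_left _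
        · right
          refine ⟨hp1, ?_, hE0⟩
          have h5 : p ∣ D ^ 4 := by
            rw [hb']
            exact h4.mul_left _
          exact (hp1.dvd_of_dvd_pow h5).mul_right _
      · right
        refine ⟨hp1, ?_, hE0⟩
        have h5 : p ∣ y ^ 2 := by
          rw [← hc']
          exact h3.mul_left _
        exact (hp1.dvd_of_dvd_pow h5).mul_left _
    calc HR.rad (a' * b' * (a' + b')) ≤ HR.rad (a * b * c) * (D * y) := h1
      _ ≤ HR.rad (a * b * c) * (c * (2 * c ^ 2)) :=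
          Nat.mul_le_mul_left _ (Nat.mul_le_mul hDle hyle)
      _ = 2 * c ^ (4 - 1) * HR.rad (a * b * c) := by ring
      _ ≤ 512 * c ^ (4 - 1) * HR.rad (a * b * c) :=
          Nat.mul_le_mul_right _ (Nat.mul_le_mul_right _ (by norm_num))
  · rw [← hD4, hb']

end Pool.Agent.V8H8.HR
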